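import Mathlib

/-! Project QK, ROOT: the Jacobi symbol. -/

set_option autoImplicit false

namespace Pool.Agent.Y858.QK

open Finset

theorem jac_prod (a : ℤ) (S : Finset ℕ) (hS : ∀ q ∈ S, q.Prime) :
    jacobiSym a (∏ q ∈ S, q) = ∏ q ∈ S, jacobiSym a q := by
  classical
  induction S using Finset.induction_on with
  | empty => simp
  | insert q S hq ih =>
    have h1 : q ≠ 0 := (hS q (mem_insert_self _ _)).ne_zero
    have h2 : (∏ q ∈ S, q) ≠ 0 := prod_ne_zero_iff.2 fun r hr =>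
      (hS r (mem_insert_of_mem hr)).ne_zero
    rw [prod_insert hq, prod_insert hq, jacobiSym.mul_right' a h1 h2,
      ih fun r hr => hS r (mem_insert_of_mem hr)]

theorem prod_mod8 (S : Finset ℕ) (hS : ∀ q ∈ S, q % 8 = 1) : (∏ q ∈ S, q) % 8 = 1 := by
  classical
  induction S using Finset.induction_on with
  | empty => simp
  | insert q S hq ih =>
    rw [prod_insert hq, Nat.mul_mod, hS q (mem_insert_self _ _),
      ih fun r hr => hS r (mem_insert_of_mem hr)]

theorem mod8 {τ : ℕ} (hτ : Squarefree τ) (h8 : ∀ q ∈ τ.primeFactors, q % 8 = 1) :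
    τ % 8 = 1 := by
  have h := prod_mod8 τ.primeFactors h8
  rwa [Nat.prod_primeFactors_of_squarefree hτ] at h

/-- `2` and `-1` are squares modulo the primes `1` modulo `8` -/
theorem jac_two {q : ℕ} (h8 : q % 8 = 1) : jacobiSym 2 q = 1 := by
  rw [jacobiSym.at_two (Nat.odd_iff.2 (by omega)), ZMod.χ₈_nat_eq_if_mod_eight]
  have h1 : q % 2 ≠ 0 := by omega
  rw [if_neg h1, if_pos (Or.inl h8)]

theorem jac_neg_one {q : ℕ} (h8 : q % 8 = 1) : jacobiSym (-1) q = 1 := by
  rw [jacobiSym.at_neg_one (Nat.odd_iff.2 (by omega)), ZMod.χ₄_nat_one_mod_four (by omega)]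

theorem root_sym (f β τ a b c : ℕ) (hτ : Squarefree τ) (h8 : ∀ q ∈ τ.primeFactors, q % 8 = 1)
    (hf : f.Prime) (hb1 : jacobiSym β f = 1) (hb2 : jacobiSym (1 - (β : ℤ)) f = -1)
    (hrel : (a : ℤ) - b = 32 * c)
    (hRC : ∀ q ∈ τ.primeFactors, a % q = 1 ∧ (q = f → b % q = β) ∧ (q ≠ f → (b + 1) % q = 0)) :
    jacobiSym ((2 * (a * b * c) : ℕ) : ℤ) τ = if f ∣ τ then -1 else 1 := by
  have key : ∀ q ∈ τ.primeFactors,
      jacobiSym ((2 * (a * b * c) : ℕ) : ℤ) q = if q = f then -1 else 1 := by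
    intro q hq
    have hq8 := h8 q hq
    have hqp := Nat.prime_of_mem_primeFactors hq
    obtain ⟨h1, h2, h3⟩ := hRC q hq
    have j2 := jac_two hq8
    have ja : jacobiSym (a : ℤ) q = 1 := by
      have e : (a : ℤ) % (q : ℕ) = 1 % (q : ℕ) := by
        have h4 : (a : ℤ) % (q : ℕ) = 1 := by exact_mod_cast h1
        have h5 : (1 : ℤ) % (q : ℕ) = 1 := by
          have := hqp.one_lt
          exact Int.emod_eq_of_lt (by norm_num) (by exact_mod_cast this)
        rw [h4, h5]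
      rw [jacobiSym.mod_left' e, jacobiSym.one_left]
    have j32 : jacobiSym (32 : ℤ) q = 1 := by
      have e : (32 : ℤ) = 2 ^ 5 := by norm_num
      rw [e, jacobiSym.pow_left, j2, one_pow]
    have jc : jacobiSym (c : ℤ) q = jacobiSym ((a : ℤ) - b) q := by
      rw [hrel, jacobiSym.mul_left, j32, one_mul]
    have e1 : jacobiSym ((2 * (a * b * c) : ℕ) : ℤ) q =
        jacobiSym (b : ℤ) q * jacobiSym ((a : ℤ) - b) q := by
      push_cast
      rw [jacobiSym.mul_left, jacobiSym.mul_left, jacobiSym.mul_left, j2, ja, jc]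
      ring
    rw [e1]
    by_cases hqf : q = f
    · rw [if_pos hqf]
      have hb : (b : ℤ) % (q : ℕ) = (β : ℤ) % (q : ℕ) := by
        have h4 := h2 hqf
        have h5 : ((b % q : ℕ) : ℤ) = (β : ℤ) := by exact_mod_cast h4
        rw [← h5]
        push_cast
        rw [Int.emod_emod_of_dvd _ (dvd_refl _)]
      have ha : (a : ℤ) % (q : ℕ) = 1 % (q : ℕ) := by
        have h4 : (a : ℤ) % (q : ℕ) = 1 := by exact_mod_cast h1
        have h5 : (1 : ℤ) % (q : ℕ) = 1 := by
          have := hqp.one_lt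
          exact Int.emod_eq_of_lt (by norm_num) (by exact_mod_cast this)
        rw [h4, h5]
      have hab : ((a : ℤ) - b) % (q : ℕ) = (1 - (β : ℤ)) % (q : ℕ) := Int.ModEq.sub ha hb
      rw [jacobiSym.mod_left' hb, jacobiSym.mod_left' hab, hqf, hb1, hb2]
      norm_num
    · rw [if_neg hqf]
      have hb : (b : ℤ) % (q : ℕ) = (-1 : ℤ) % (q : ℕ) := by
        have h4 : (q : ℤ) ∣ (b : ℤ) - (-1) := by
          have h5 : q ∣ b + 1 := Nat.dvd_of_mod_eq_zero (h3 hqf)
          have h6 : (q : ℤ) ∣ ((b + 1 : ℕ) : ℤ) := Int.natCast_dvd_natCast.2 h5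
          rw [sub_neg_eq_add]
          exact_mod_cast h6
        exact Int.emod_eq_emod_iff_emod_sub_eq_zero.2 (Int.emod_eq_zero_of_dvd h4)
      have ha : (a : ℤ) % (q : ℕ) = 1 % (q : ℕ) := by
        have h4 : (a : ℤ) % (q : ℕ) = 1 := by exact_mod_cast h1
        have h5 : (1 : ℤ) % (q : ℕ) = 1 := by
          have := hqp.one_lt
          exact Int.emod_eq_of_lt (by norm_num) (by exact_mod_cast this)
        rw [h4, h5]
      have hab : ((a : ℤ) - b) % (q : ℕ) = (2 : ℤ) % (q : ℕ) := by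
        have h4 : ((a : ℤ) - b) % (q : ℕ) = (1 - (-1 : ℤ)) % (q : ℕ) := Int.ModEq.sub ha hb
        rw [h4]
        norm_num
      rw [jacobiSym.mod_left' hb, jacobiSym.mod_left' hab, j2, jac_neg_one hq8]
      norm_num
  have h0 : τ ≠ 0 := hτ.ne_zero
  have e2 : jacobiSym ((2 * (a * b * c) : ℕ) : ℤ) τ =
      ∏ q ∈ τ.primeFactors, jacobiSym ((2 * (a * b * c) : ℕ) : ℤ) q := by
    conv_lhs => rw [← Nat.prod_primeFactors_of_squarefree hτ]
    exact jac_prod _ _ fun q hq => Nat.prime_of_mem_primeFactors hq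
  rw [e2, prod_congr rfl key, Finset.prod_ite_eq']
  have h1 : f ∈ τ.primeFactors ↔ f ∣ τ := by
    rw [Nat.mem_primeFactors]
    exact ⟨fun h => h.2.1, fun h => ⟨hf, h, h0⟩⟩
  simp only [h1]

end Pool.Agent.Y858.QK
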