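import Pool.Agent.Y667.QK.StmR
import Pool.Agent.Y858.QK.RootCore

/-! Project QK, ROOT: the root numbers of the twists. -/

set_option autoImplicit false

namespace Pool.Agent.Y858.QK

open Finset Filter Pool.Agent.W262.RK Pool.Agent.W307.RT Pool.Agent.W307.RS Pool.Agent.W307.SE
  Pool.Agent.W307.FK Pool.Agent.Y667.RP Pool.Agent.Y667.RZ Pool.Agent.Y667.PA Pool.Agent.Y285.RP
  Pool.Agent.Y667.QK

theorem ROOT : St_ROOT := by
  intro f β τ s hF hA h hcop hRC k hk
  have hb : (s 1 : ℤ) % 4 = 1 := by have := h.m1; omega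
  have hτ8 : τ % 8 = 1 := mod8 hA.sqf hA.m8
  refine ⟨Vm (s 1) (s 2), τ, h.semi, hA.sqf, by omega, ?_,
    ⟨⟨1, (τ : ℚ) * ((s 1 : ℤ) - k), 0, 0⟩, ?_⟩, ?_⟩
  · rw [h.disc]
    apply Nat.Coprime.mul_right
    · have h1 : Nat.Coprime τ 2 := by
        rw [Nat.coprime_two_right]
        exact Nat.odd_iff.2 (by omega)
      exact Nat.Coprime.pow_right 2 h1
    · exact Nat.Coprime.pow_right _ hcop
  · have := cc_twist (b := s 1) (c := s 2) (k := k) hb (by rw [← h.a_eq]; exact hk) τ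
    rw [← h.a_eq] at this
    rw [← this]
  · rw [h.wSemi_eq, h.primes, prod_insert h.two, prod_pf h.sq, prod3,
      root_sym f β τ (s 0) (s 1) (s 2) hA.sqf hA.m8 hF.pr hF.b1 hF.b2 h.rel hRC]
    by_cases hf : f ∣ τ
    · rw [if_pos hf, if_pos hf, pow_succ]
      ring
    · rw [if_neg hf, if_neg hf, add_zero, one_mul]

end Pool.Agent.Y858.QK
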